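import Pool.Agent.H88.CM.Targets

/-!
Board clm_modules, row GLU: composition of diffeomorphisms with disjoint supports.
-/

set_option autoImplicit false

namespace Pool.Agent.H74.CM2.GLU

open Set Function Topology Metric Filter
open scoped Manifold
open Pool.Agent.H88.CL Pool.Agent.H88.CM

theorem comp_dm {d : ℕ} {M : Type} [TopologicalSpace M] [ChartedSpace (E d) M]
    {f f' g g' : M → M} (hf : DM d f f') (hg : DM d g g') : DM d (f ∘ g) (g' ∘ f') where
  c := hf.c.comp hg.c
  c' := hg.c'.comp hf.c'
  li := fun x => by simp only [comp_apply, hf.li, hg.li]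
  ri := fun x => by simp only [comp_apply, hg.ri, hf.ri]

theorem pf_GLU : T_GLU := by
  intro d M _ _ N
  induction N with
  | zero =>
    intro h h' Sg _ _ _
    exact ⟨id, id, ⟨contMDiff_id, contMDiff_id, fun _ => rfl, fun _ => rfl⟩,
      fun l hl => absurd hl (Nat.not_lt_zero l), fun _ _ => rfl⟩
  | succ N ih =>
    intro h h' Sg hDM hSg hdj
    obtain ⟨H0, H0', hD0, hl0, hid0⟩ := ih h h' Sg (fun l hl => hDM l (by omega))
      (fun l hl => hSg l (by omega)) (fun l hl j hj => hdj l (by omega) j (by omega))
    have hN := hDM N (Nat.lt_succ_self N)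
    have hinj : Injective (h N) := LeftInverse.injective hN.li
    have hfix : ∀ y, y ∉ Sg N → h N y = y := by
      intro y hy
      by_contra hne
      exact hy (hSg N (Nat.lt_succ_self N) y hne)
    refine ⟨H0 ∘ h N, h' N ∘ H0', comp_dm hD0 hN, ?_, ?_⟩
    · intro l hl y hy
      rw [comp_apply]
      rcases Nat.lt_or_ge l N with hlN | hlN
      · have hyN : y ∉ Sg N := hy N (Nat.lt_succ_self N) (by omega)
        rw [hfix y hyN]
        exact hl0 l hlN y fun j hj hjl => hy j (by omega) hjl
      · have hlN' : l = N := by omega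
        subst hlN'
        refine hid0 _ fun j hj hmem => ?_
        by_cases hfx : h l y = y
        · rw [hfx] at hmem
          exact hy j (by omega) (by omega) hmem
        · have h1 : h l y ∈ Sg l := hSg l hl _ fun h2 => hfx (hinj h2)
          exact Set.disjoint_left.1 (hdj l hl j (by omega) (by omega)) h1 hmem
    · intro y hy
      rw [comp_apply, hfix y (hy N (Nat.lt_succ_self N))]
      exact hid0 y fun j hj => hy j (by omega)

end Pool.Agent.H74.CM2.GLU
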