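import Pool.Agent.H88.CM.Targets

/-!
Board clm_modules, row ORB: charts along the orbit, and the returns.
-/

set_option autoImplicit false

namespace Pool.Agent.H74.CM2.ORB

open Set Function Topology Metric Filter
open scoped Manifold
open Pool.Agent.H88.CL Pool.Agent.H88.CM

theorem cfg_mono {d : ℕ} {L L' : ℝ} {Φ Φ' : ℕ → E d → E d} (h : CfgS d L Φ Φ') (hL : L ≤ L') :
    CfgS d L' Φ Φ' where
  two := h.two.trans hL
  c2 := h.c2
  c2' := h.c2'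
  li := h.li
  ri := h.ri
  b := fun l x => (h.b l x).trans hL
  b' := fun l x => (h.b' l x).trans hL
  lp := fun l x y => (h.lp l x y).trans (mul_le_mul_of_nonneg_right hL (norm_nonneg _))

theorem pf_ORB (h1 : T_SEQ) (h2 : T_TRM) (h3 : T_ITAS) : T_ORB := by
  intro d M _ _ _ _ _ n A Kh r hGA f f' hf
  obtain ⟨s1, L1, hs1, hL1, hseq⟩ := h1 d M n A Kh r hGA f f' hf
  obtain ⟨r2, L2, hr2, hL2, htrm⟩ := h2 d M n A Kh r hGA
  have hLL1 : L1 ≤ max L1 L2 := le_max_left _ _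
  have hLL2 : L2 ≤ max L1 L2 := le_max_right _ _
  have hL1pos : 0 < L1 := by linarith
  refine ⟨min s1 r2, max L1 L2, lt_min hs1 hr2, hL1.trans hLL1, fun b i0 hb hball => ?_⟩
  obtain ⟨ι, Φ, Φ', hι, hcfg, horb⟩ := hseq b i0 hb hball
  have hsmall : ∀ (l : ℕ) (w : E d), (max L1 L2) ^ l * ‖w - A i0 b‖ < min s1 r2 →
      L1 ^ l * ‖w - A i0 b‖ < s1 ∧ L1 ^ l * ‖w - A i0 b‖ < r2 := by
    intro l w hw
    have h4 : L1 ^ l * ‖w - A i0 b‖ ≤ (max L1 L2) ^ l * ‖w - A i0 b‖ :=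
      mul_le_mul_of_nonneg_right (pow_le_pow_left₀ hL1pos.le hLL1 l) (norm_nonneg _)
    exact ⟨h4.trans_lt (hw.trans_le (min_le_left _ _)),
      h4.trans_lt (hw.trans_le (min_le_right _ _))⟩
  refine ⟨ι, Φ, Φ', hι, cfg_mono hcfg hLL1, fun l w hw => horb l w (hsmall l w hw).1,
    fun k w hw hsrc hK => ?_⟩
  obtain ⟨hw1, hw2⟩ := hsmall k w hw
  obtain ⟨a1, a2, a3, a4⟩ := horb k w hw1
  have hb0 : L1 ^ k * ‖A i0 b - A i0 b‖ < s1 := by
    rw [sub_self, norm_zero, mul_zero]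
    exact hs1
  obtain ⟨b1, b2, b3, b4⟩ := horb k (A i0 b) hb0
  rw [(A i0).left_inv hb] at b3 b4
  set v := Cmp Φ k w with hv
  set v' := Cmp Φ k (A i0 b) with hv'
  have hvs : (A (ι k)).symm v = f^[k] ((A i0).symm w) := by
    rw [← a4, (A (ι k)).left_inv a3]
  have hvs' : (A (ι k)).symm v' = f^[k] b := by
    rw [← b4, (A (ι k)).left_inv b3]
  have hlip : ‖v' - v‖ ≤ L1 ^ k * ‖w - A i0 b‖ := by
    have := (h3 d L1 Φ Φ' hcfg k).2.2.1 (A i0 b) w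
    rwa [norm_sub_rev (A i0 b) w] at this
  have hd : ‖v' - v‖ ≤ r2 := hlip.trans hw2.le
  obtain ⟨-, c2, c3⟩ := htrm (ι k) i0 v v' a2 (by rw [hvs]; exact hsrc) (by rw [hvs]; exact hK) hd
  rw [hvs'] at c2 c3
  rw [hvs] at c3
  refine ⟨c2, c3.trans ?_⟩
  calc L2 * ‖v' - v‖ ≤ L2 * (L1 ^ k * ‖w - A i0 b‖) :=
        mul_le_mul_of_nonneg_left hlip (by linarith)
    _ ≤ max L1 L2 * ((max L1 L2) ^ k * ‖w - A i0 b‖) := by
        refine mul_le_mul hLL2 ?_ (by positivity) (by positivity)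
        exact mul_le_mul_of_nonneg_right (pow_le_pow_left₀ hL1pos.le hLL1 k) (norm_nonneg _)
    _ = (max L1 L2) ^ (k + 1) * ‖w - A i0 b‖ := by ring

end Pool.Agent.H74.CM2.ORB
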